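import Pool.Agent.H66.IQ.TE

/-!
# Row PFL of the board `iq_modules`: protocols do not see the blocks of larger scale

The model is `Pool/Agent/H32/IP/GFL.lean`.
-/

set_option autoImplicit false

namespace Pool.Agent.H35.IQ

open Finset Pool.Agent.H6.NB Pool.Agent.H70.OQ Pool.Agent.H70.EH Pool.Agent.H70.EI
open Pool.Agent.H78.XQ Pool.Agent.H66.IQ
open Pool.Agent.H66.IP (Local ins sp dm Good Ext Fool scl)

theorem Cl_succ {V : Type} {S : ℕ} (hS : 1 ≤ S) {d : ℕ} {f : (V → Bool) → Bool}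
    (h : Cl V S d f) : Cl V S (d + 1) f :=
  ⟨1, fun _ => f, fun _ => true, hS, fun _ => h, fun y =>
    ⟨fun hy => ⟨0, hy⟩, fun ⟨_, hy⟩ => hy⟩⟩

theorem Cl_mono {V : Type} {S : ℕ} (hS : 1 ≤ S) {d d' : ℕ} (hd : d ≤ d') {f : (V → Bool) → Bool}
    (h : Cl V S d f) : Cl V S d' f := by
  induction hd with
  | refl => exact h
  | step _ ih => exact Cl_succ hS ih

theorem Cb_mono {V : Type} {S : ℕ} (hS : 1 ≤ S) {d d' : ℕ} (hd : d ≤ d') {t : Tr V}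
    (h : t.Cb S d) : t.Cb S d' := by
  induction t with
  | lf a => exact Cl_mono hS hd h
  | av l r hl hr => exact ⟨hl h.1, hr h.2⟩
  | ch l r hl hr => exact ⟨hl h.1, hr h.2⟩

theorem pf_PFL (hPTR : T_PTR) (hIZU : Pool.Agent.H66.IP.T_IZU) (hSPF : Pool.Agent.H66.IP.T_SPF)
    (hBFA : T_BFA) : T_PFL := by
  intro V k
  refine ⟨k + 5, fun n hn G hG => ?_⟩
  intro E O hO P g p h b hsc
  obtain ⟨-, -, hSz, -, -, -⟩ := hSPF V
  obtain ⟨hI, -⟩ := hIZU (dm V) E O hO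
  obtain ⟨-, hI2, hI3⟩ := hI P g p h
  set r := scl V p with hr
  have hpos : 1 ≤ 2 ^ r := Nat.one_le_two_pow
  have hnr : 2 ^ (n + 1) ≤ 2 ^ r := Nat.pow_le_pow_right (by norm_num) hsc
  have hm : 2 ^ (n / 4) ≤ 2 ^ n := Nat.pow_le_pow_right (by norm_num) (Nat.div_le_self n 4)
  have h1n : 1 ≤ 2 ^ n := Nat.one_le_two_pow
  have hm1 : 2 ^ (n / 4) + 1 ≤ 2 ^ r := by
    rw [pow_succ] at hnr
    omega
  have hS2 : 2 ≤ 2 ^ 2 ^ r := by
    calc 2 = 2 ^ 1 := (pow_one 2).symm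
      _ ≤ 2 ^ 2 ^ r := Nat.pow_le_pow_right (by norm_num) hpos
  have hSm : 2 ^ (2 ^ (n / 4) + 1) ≤ 2 ^ 2 ^ r := Nat.pow_le_pow_right (by norm_num) hm1
  have hkr : k + 5 ≤ r := by omega
  have hmr : 2 ^ (n / 4) ≤ 2 ^ r := by omega
  refine hBFA (scl V p) _ _ _ _ (hSz p) b
    (fun c => G.val (O (Function.update P ⟨p, h⟩ c) g)) ?_ ?_
  · intro P' u h'
    obtain ⟨t, h1, h2, h3⟩ := hPTR _ k (2 ^ (n / 4)) (2 ^ 2 ^ r) G _ hS2 hSm (hI2 (P', h') u) hG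
    exact ⟨t, h1.trans hmr, Cb_mono (le_trans (by norm_num) hS2) hkr h2, fun y => (h3 y).symm⟩
  · intro P'
    obtain ⟨t, h1, h2, h3⟩ := hPTR _ k (2 ^ (n / 4)) (2 ^ 2 ^ r) G _ hS2 hSm
      (hI3 (P', fun _ => false)) hG
    exact ⟨t, h1.trans hmr, Cb_mono (le_trans (by norm_num) hS2) hkr h2, fun y => (h3 y).symm⟩

end Pool.Agent.H35.IQ
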